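import Pool.Agent.Helper70.HS.Stmts

set_option autoImplicit false

namespace Pool.Agent.Helper13.HS

open Finset
open Pool.Agent.Helper69.RK (CH cel Yt ht Sys mass)
open Pool.Agent.Helper70.HS

/-- the children of a cell -/
noncomputable def frCh {m : ℕ} (q : Fin m → ℤ) : Finset (Fin m → ℤ) :=
  Fintype.piFinset fun i => {2 * q i, 2 * q i + 1}

theorem fr_mem {m : ℕ} (j : ℕ) (x : Fin m → ℝ) (q q' : Fin m → ℤ) (h : cel (j + 1) x = q') :
    q' ∈ frCh q ↔ cel j x = q := by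
  unfold frCh
  rw [Fintype.mem_piFinset]
  unfold cel at h ⊢
  have key : ∀ i, (q' i ∈ ({2 * q i, 2 * q i + 1} : Finset ℤ)) ↔ ⌊(2 : ℝ) ^ j * x i⌋ = q i := by
    intro i
    have hi : ⌊(2 : ℝ) ^ (j + 1) * x i⌋ = q' i := congrFun h i
    rw [Int.floor_eq_iff] at hi
    have e : (2 : ℝ) ^ (j + 1) * x i = 2 * ((2 : ℝ) ^ j * x i) := by ring
    rw [e] at hi
    rw [Int.floor_eq_iff, Finset.mem_insert, Finset.mem_singleton]
    obtain ⟨h1, h2⟩ := hi
    generalize (2 : ℝ) ^ j * x i = y at h1 h2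
    constructor
    · rintro (h3 | h3)
      · rw [h3] at h1 h2
        push_cast at h1 h2
        constructor <;> linarith
      · rw [h3] at h1 h2
        push_cast at h1 h2
        constructor <;> linarith
    · rintro ⟨h3, h4⟩
      have h5 : (2 * q i : ℝ) < q' i + 1 := by linarith
      have h6 : (q' i : ℝ) < 2 * q i + 2 := by linarith
      have h5' : 2 * q i < q' i + 1 := by exact_mod_cast h5
      have h6' : q' i < 2 * q i + 2 := by exact_mod_cast h6
      omega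
  constructor
  · intro h1
    funext i
    exact (key i).1 (h1 i)
  · intro h1 i
    exact (key i).2 (congrFun h1 i)

theorem fr_mono {m : ℕ} (j k : ℕ) (hjk : j ≤ k) (x y : Fin m → ℝ) (h : cel k x = cel k y) :
    cel j x = cel j y := by
  induction k, hjk using Nat.le_induction with
  | base => exact h
  | succ k _ ih =>
    apply ih
    have h1 := (fr_mem k x (cel k x) (cel (k + 1) x) rfl).2 rfl
    rw [h] at h1
    exact ((fr_mem k y (cel k x) (cel (k + 1) y) rfl).1 h1).symm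

theorem fr_biUnion {α β : Type} [DecidableEq α] [DecidableEq β] (s : Finset α) (t : α → Finset β)
    (f : β → ℝ) (hf : ∀ b, 0 ≤ f b) : ∑ b ∈ s.biUnion t, f b ≤ ∑ a ∈ s, ∑ b ∈ t a, f b := by
  induction s using Finset.induction_on with
  | empty => simp
  | insert a s ha ih =>
    rw [Finset.biUnion_insert, Finset.sum_insert ha]
    have h1 : ∑ b ∈ t a ∪ s.biUnion t, f b ≤ ∑ b ∈ t a, f b + ∑ b ∈ s.biUnion t, f b := by
      rw [← Finset.sum_union_inter]
      have : 0 ≤ ∑ b ∈ t a ∩ s.biUnion t, f b := Finset.sum_nonneg fun b _ => hf b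
      linarith
    linarith

/-- the induction statement -/
def FrP {m : ℕ} (σ : ℝ) (X : Set (Fin m → ℝ)) (n j : ℕ) (q : Fin m → ℤ)
    (S : Finset (Fin m → ℝ)) (w : (Fin m → ℝ) → ℝ) (F : Finset (ℕ × (Fin m → ℤ))) : Prop :=
  (∀ x ∈ S, x ∈ X ∧ cel j x = q) ∧ (∀ x, 0 ≤ w x) ∧ (∀ x, x ∉ S → w x = 0) ∧
    (∀ x ∈ X, cel j x = q → ∃ k, (k, cel k x) ∈ F) ∧
    ∑ p ∈ F, (2 : ℝ) ^ (-(σ * (p.1 : ℝ))) ≤ ∑ x ∈ S, w x ∧
    ∀ k, j ≤ k → k ≤ n → ∀ p : Fin m → ℤ, ∑ x ∈ S with cel k x = p, w x ≤ (2 : ℝ) ^ (-(σ * (k : ℝ)))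

theorem fr_base {m : ℕ} (σ : ℝ) (X : Set (Fin m → ℝ)) (n : ℕ) (q : Fin m → ℤ) :
    ∃ S w F, FrP σ X n n q S w F := by
  classical
  by_cases h : ∃ x ∈ X, cel n x = q
  · obtain ⟨x, hx, hxq⟩ := h
    refine ⟨{x}, fun y => if y = x then (2 : ℝ) ^ (-(σ * (n : ℝ))) else 0, {(n, q)}, ?_, ?_, ?_, ?_,
      ?_, ?_⟩
    · intro y hy
      rw [Finset.mem_singleton] at hy
      rw [hy]
      exact ⟨hx, hxq⟩
    · intro y
      beta_reduce
      split_ifs
      · positivity
      · exact le_rfl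
    · intro y hy
      rw [Finset.mem_singleton] at hy
      beta_reduce
      rw [if_neg hy]
    · intro y _ hyq
      exact ⟨n, by rw [hyq]; exact Finset.mem_singleton_self _⟩
    · rw [Finset.sum_singleton, Finset.sum_singleton, if_pos rfl]
    · intro k hk1 hk2 p
      have hk : k = n := le_antisymm hk2 hk1
      subst hk
      calc ∑ y ∈ ({x} : Finset (Fin m → ℝ)) with cel k y = p,
            (if y = x then (2 : ℝ) ^ (-(σ * (k : ℝ))) else 0)
          ≤ ∑ y ∈ ({x} : Finset (Fin m → ℝ)), (if y = x then (2 : ℝ) ^ (-(σ * (k : ℝ))) else 0) := by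
            apply Finset.sum_le_sum_of_subset_of_nonneg (Finset.filter_subset _ _)
            intro y _ _
            split_ifs
            · positivity
            · exact le_rfl
        _ = _ := by rw [Finset.sum_singleton, if_pos rfl]
  · refine ⟨∅, fun _ => 0, ∅, ?_, ?_, ?_, ?_, ?_, ?_⟩
    · intro y hy
      exact absurd hy (Finset.notMem_empty y)
    · intro y
      exact le_rfl
    · intro y _
      rfl
    · intro y hy hyq
      exact absurd ⟨y, hy, hyq⟩ h
    · simp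
    · intro k _ _ p
      simp
      positivity

theorem fr_step {m : ℕ} (σ : ℝ) (X : Set (Fin m → ℝ)) (n j : ℕ)
    (ih : ∀ q : Fin m → ℤ, ∃ S w F, FrP σ X n (j + 1) q S w F) (q : Fin m → ℤ) :
    ∃ S w F, FrP σ X n j q S w F := by
  classical
  choose S w F hF using ih
  obtain ⟨T, hT⟩ : ∃ T, T = (frCh q).biUnion S := ⟨_, rfl⟩
  obtain ⟨W, hW⟩ : ∃ W : (Fin m → ℝ) → ℝ, W = fun x => ∑ q' ∈ frCh q, w q' x := ⟨_, rfl⟩
  have hW0 : ∀ x, 0 ≤ W x := by
    intro x
    rw [hW]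
    exact Finset.sum_nonneg fun q' _ => (hF q').2.1 x
  have hWT : ∀ x, x ∉ T → W x = 0 := by
    intro x hx
    rw [hW]
    refine Finset.sum_eq_zero fun q' hq' => (hF q').2.2.1 x fun h => hx ?_
    rw [hT, Finset.mem_biUnion]
    exact ⟨q', hq', h⟩
  have hTX : ∀ x ∈ T, x ∈ X ∧ cel j x = q := by
    intro x hx
    rw [hT, Finset.mem_biUnion] at hx
    obtain ⟨q', hq', hx'⟩ := hx
    obtain ⟨h1, h2⟩ := (hF q').1 x hx'
    exact ⟨h1, (fr_mem j x q q' h2).1 hq'⟩
  have hsum : ∀ (P : (Fin m → ℝ) → Prop) [DecidablePred P], ∑ x ∈ T with P x, W x =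
      ∑ q' ∈ frCh q, ∑ x ∈ S q' with P x, w q' x := by
    intro P _
    rw [hW, Finset.sum_comm]
    refine Finset.sum_congr rfl fun q' hq' => ?_
    symm
    apply Finset.sum_subset
    · intro x hx
      rw [Finset.mem_filter] at hx ⊢
      refine ⟨?_, hx.2⟩
      rw [hT, Finset.mem_biUnion]
      exact ⟨q', hq', hx.1⟩
    · intro x hx hx'
      apply (hF q').2.2.1 x
      intro h
      rw [Finset.mem_filter] at hx
      exact hx' (Finset.mem_filter.2 ⟨h, hx.2⟩)
  have hmass : ∑ x ∈ T, W x = ∑ q' ∈ frCh q, ∑ x ∈ S q', w q' x := by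
    have := hsum fun _ => True
    simpa using this
  have hcell : ∀ k, j + 1 ≤ k → k ≤ n → ∀ p : Fin m → ℤ, ∑ x ∈ T with cel k x = p, W x ≤
      (2 : ℝ) ^ (-(σ * (k : ℝ))) := by
    intro k hk1 hk2 p
    rw [hsum (fun x => cel k x = p)]
    by_cases hex : ∃ q' ∈ frCh q, ∃ x ∈ S q', cel k x = p
    · obtain ⟨q0, hq0, x0, hx0, hxp⟩ := hex
      rw [Finset.sum_eq_single q0]
      · exact (hF q0).2.2.2.2.2 k hk1 hk2 p
      · intro q' hq' hne
        apply Finset.sum_eq_zero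
        intro x hx
        rw [Finset.mem_filter] at hx
        exfalso
        apply hne
        have h1 := ((hF q').1 x hx.1).2
        have h2 := ((hF q0).1 x0 hx0).2
        rw [← h1, ← h2]
        exact fr_mono (j + 1) k hk1 x x0 (by rw [hx.2, hxp])
      · intro h
        exact absurd hq0 h
    · rw [Finset.sum_eq_zero]
      · positivity
      · intro q' hq'
        apply Finset.sum_eq_zero
        intro x hx
        rw [Finset.mem_filter] at hx
        exact absurd ⟨q', hq', x, hx.1, hx.2⟩ hex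
  obtain ⟨M, hM⟩ : ∃ M, M = ∑ x ∈ T, W x := ⟨_, rfl⟩
  have hM0 : 0 ≤ M := by rw [hM]; exact Finset.sum_nonneg fun x _ => hW0 x
  have h2j : (0 : ℝ) < (2 : ℝ) ^ (-(σ * (j : ℝ))) := by positivity
  by_cases hcase : M ≤ (2 : ℝ) ^ (-(σ * (j : ℝ)))
  · refine ⟨T, W, (frCh q).biUnion F, hTX, hW0, hWT, ?_, ?_, ?_⟩
    · intro x hx hxq
      have h1 : cel (j + 1) x ∈ frCh q := (fr_mem j x q _ rfl).2 hxq
      obtain ⟨k, hk⟩ := (hF (cel (j + 1) x)).2.2.2.1 x hx rfl
      exact ⟨k, Finset.mem_biUnion.2 ⟨_, h1, hk⟩⟩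
    · rw [hmass]
      calc ∑ p ∈ (frCh q).biUnion F, (2 : ℝ) ^ (-(σ * (p.1 : ℝ)))
          ≤ ∑ q' ∈ frCh q, ∑ p ∈ F q', (2 : ℝ) ^ (-(σ * (p.1 : ℝ))) := by
            apply fr_biUnion
            intro p
            positivity
        _ ≤ _ := Finset.sum_le_sum fun q' _ => (hF q').2.2.2.2.1
    · intro k hk1 hk2 p
      rcases Nat.lt_or_ge j k with h | h
      · exact hcell k h hk2 p
      · obtain rfl : k = j := le_antisymm h hk1
        calc ∑ x ∈ T with cel k x = p, W x ≤ ∑ x ∈ T, W x :=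
              Finset.sum_le_sum_of_subset_of_nonneg (Finset.filter_subset _ _) fun x _ _ => hW0 x
          _ ≤ _ := by rw [← hM]; exact hcase
  · have hM1 : (2 : ℝ) ^ (-(σ * (j : ℝ))) < M := not_le.1 hcase
    have hMpos : 0 < M := h2j.trans hM1
    obtain ⟨c, hc⟩ : ∃ c, c = (2 : ℝ) ^ (-(σ * (j : ℝ))) / M := ⟨_, rfl⟩
    have hc0 : 0 < c := by rw [hc]; positivity
    have hc1 : c ≤ 1 := by rw [hc, div_le_one hMpos]; exact hM1.le
    have hcM : c * M = (2 : ℝ) ^ (-(σ * (j : ℝ))) := by rw [hc]; field_simp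
    refine ⟨T, fun x => c * W x, {(j, q)}, hTX, fun x => mul_nonneg hc0.le (hW0 x), ?_, ?_, ?_, ?_⟩
    · intro x hx
      beta_reduce
      rw [hWT x hx, mul_zero]
    · intro x _ hxq
      exact ⟨j, by rw [hxq]; exact Finset.mem_singleton_self _⟩
    · rw [Finset.sum_singleton, ← Finset.mul_sum, ← hM, hcM]
    · intro k hk1 hk2 p
      rw [← Finset.mul_sum]
      have hnn : 0 ≤ ∑ x ∈ T with cel k x = p, W x := Finset.sum_nonneg fun x _ => hW0 x
      rcases Nat.lt_or_ge j k with h | h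
      · calc c * ∑ x ∈ T with cel k x = p, W x ≤ 1 * ∑ x ∈ T with cel k x = p, W x :=
              mul_le_mul_of_nonneg_right hc1 hnn
          _ ≤ _ := by rw [one_mul]; exact hcell k h hk2 p
      · obtain rfl : k = j := le_antisymm h hk1
        calc c * ∑ x ∈ T with cel k x = p, W x ≤ c * ∑ x ∈ T, W x := by
              apply mul_le_mul_of_nonneg_left _ hc0.le
              exact Finset.sum_le_sum_of_subset_of_nonneg (Finset.filter_subset _ _)
                fun x _ _ => hW0 x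
          _ ≤ _ := by rw [← hM, hcM]

theorem fr_all {m : ℕ} (σ : ℝ) (X : Set (Fin m → ℝ)) (n : ℕ) : ∀ d ≤ n, ∀ q : Fin m → ℤ,
    ∃ S w F, FrP σ X n (n - d) q S w F := by
  intro d
  induction d with
  | zero =>
    intro _ q
    rw [Nat.sub_zero]
    exact fr_base σ X n q
  | succ d ih =>
    intro hd q
    apply fr_step σ X n (n - (d + 1)) _ q
    intro q'
    have h1 : n - (d + 1) + 1 = n - d := by omega
    rw [h1]
    exact ih (by omega) q'

theorem st_FROST : ST_FROST := by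
  classical
  intro m σ c X n hσ hc0 hc1 hX hX01
  obtain ⟨S, w, F, h1, h2, h3, h4, h5, h6⟩ := fr_all σ X n n le_rfl (fun _ => 0)
  rw [Nat.sub_self] at h1 h4 h6
  have hcel0 : ∀ x ∈ X, cel 0 x = fun _ => 0 := by
    intro x hx
    unfold cel
    funext i
    rw [pow_zero, one_mul, Int.floor_eq_zero_iff]
    exact hX01 x hx i
  obtain ⟨M, hM⟩ : ∃ M, M = ∑ x ∈ S, w x := ⟨_, rfl⟩
  have hcM : c ≤ M := by
    have h7 := hX (F : Set (ℕ × (Fin m → ℤ))) (by
      intro x hx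
      obtain ⟨k, hk⟩ := h4 x hx (hcel0 x hx)
      exact ⟨k, hk⟩)
    have h8 : wQ σ (F : Set (ℕ × (Fin m → ℤ))) =
        ENNReal.ofReal (∑ p ∈ F, (2 : ℝ) ^ (-(σ * (p.1 : ℝ)))) := by
      unfold wQ
      rw [ENNReal.ofReal_sum_of_nonneg (fun p _ => by positivity)]
      exact Finset.tsum_subtype' F (fun p => ENNReal.ofReal ((2 : ℝ) ^ (-(σ * (p.1 : ℝ)))))
    rw [h8] at h7
    have h9 : c ≤ ∑ p ∈ F, (2 : ℝ) ^ (-(σ * (p.1 : ℝ))) :=
      (ENNReal.ofReal_le_ofReal_iff (Finset.sum_nonneg fun p _ => by positivity)).1 h7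
    rw [hM]
    exact h9.trans h5
  have hM0 : 0 < M := lt_of_lt_of_le hc0 hcM
  refine ⟨S, fun x => w x / M, fun x hx => (h1 x hx).1, fun x => div_nonneg (h2 x) hM0.le, ?_, ?_⟩
  · rw [← Finset.sum_div, ← hM, div_self hM0.ne']
  · intro k hk p
    rw [← Finset.sum_div]
    have h7 := h6 k (Nat.zero_le k) hk p
    calc (∑ x ∈ S with cel k x = p, w x) / M ≤ (2 : ℝ) ^ (-(σ * (k : ℝ))) / M :=
          div_le_div_of_nonneg_right h7 hM0.le
      _ ≤ _ := div_le_div_of_nonneg_left (by positivity) hc0 hcM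

end Pool.Agent.Helper13.HS
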